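import Mathlib

namespace Pool.Agent.Results.MP_3ea43b_an.No

open Topology Set

def Coc {X : Type} (R : X → X → Prop) (c : X × X → ℝ) : Prop :=
  ∀ x y z, R x y → R y z → c (x, y) + c (y, z) = c (x, z)

def Bdd {X : Type} (R : X → X → Prop) (c : X × X → ℝ) : Prop :=
  ∃ K, ∀ x y, R x y → |c (x, y)| ≤ K

def Tail {k : ℕ → ℕ} (n : ℕ) (x y : ∀ i, Fin (k i)) : Prop := ∀ i, n ≤ i → x i = y i

theorem core {X : Type} [TopologicalSpace X] [CompactSpace X] {R : X → X → Prop}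
    (hR : Equivalence R) (hd : ∀ x, Dense {y | R x y}) {c c' : X × X → ℝ} (h1 : Coc R c)
    (h2 : Coc R c') (hO : ∀ (U : Set X) (a b : ℝ), IsOpen U →
      IsOpen {x | ∃ u ∈ U, R x u ∧ |c (x, u)| < a ∧ b < c' (x, u)})
    (hp : ∀ x y, R x y → 0 ≤ c' (x, y) → 0 ≤ c (x, y)) (hb : Bdd R c') : Bdd R c := by
  obtain ⟨M, hM⟩ := hb
  have z : ∀ {c}, Coc R c → ∀ x y, R x y → c (y, x) = -c (x, y) := fun {c} h x y r => by
    have := h x x x (hR.refl x) (hR.refl x)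
    have := h x y x r (hR.symm r)
    linarith
  suffices ∃ K, ∀ x y, R x y → c (x, y) ≤ K by
    obtain ⟨K, hK⟩ := this
    exact ⟨K, fun x y r => abs_le.2 ⟨by linarith [hK y x (hR.symm r), z h1 x y r], hK x y r⟩⟩
  by_cases h0 : ∀ x y, R x y → c' (x, y) ≤ 0
  · exact ⟨0, fun x y r => by
      linarith [hp y x (hR.symm r) (by linarith [h0 x y r, z h2 x y r]), z h1 x y r]⟩
  push Not at h0
  obtain ⟨x0, y0, r0, h0⟩ := h0
  have hbd : BddAbove {t | ∃ x y, R x y ∧ t = c' (x, y)} :=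
    ⟨M, by rintro _ ⟨x, y, r, rfl⟩; exact (abs_le.1 (hM x y r)).2⟩
  obtain ⟨D, hD⟩ : ∃ D, D = sSup {t | ∃ x y, R x y ∧ t = c' (x, y)} := ⟨_, rfl⟩
  have le : ∀ x y, R x y → c' (x, y) ≤ D := fun x y r => hD ▸ le_csSup hbd ⟨x, y, r, rfl⟩
  obtain ⟨_, ⟨x1, y1, r1, rfl⟩, h3⟩ := exists_lt_of_lt_csSup (s := {t | ∃ x y, R x y ∧ t = c' (x, y)})
    ⟨_, x0, y0, r0, rfl⟩ (show D / 2 < _ by rw [← hD]; linarith [le x0 y0 r0])
  have hU := hO univ (|c (x1, y1)| + 1) (D / 2) isOpen_univ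
  obtain ⟨t, ht⟩ := isCompact_univ.elim_directed_cover _ (fun n : ℕ => hO _ n (-M - 1) hU)
    (fun x _ => by
      obtain ⟨u, a, b⟩ := (hd x).exists_mem_open hU ⟨x1, y1, trivial, r1, by linarith, h3⟩
      obtain ⟨n, hn⟩ := exists_nat_gt |c (x, u)|
      exact mem_iUnion.2 ⟨n, u, b, a, hn, by linarith [(abs_le.1 (hM x u a)).1]⟩)
    (Monotone.directed_le fun m n h x ⟨u, a, b, d, e⟩ =>
      ⟨u, a, b, d.trans_le (by exact_mod_cast h), e⟩)
  refine ⟨2 * t + |c (x1, y1)| + 1, fun x y r => ?_⟩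
  obtain ⟨u, ⟨u', -, a1, a2, a3⟩, a4, a5, -⟩ := ht (mem_univ x)
  obtain ⟨v, ⟨v', -, b1, -, b3⟩, b4, b5, -⟩ := ht (mem_univ y)
  have uv : R u v := hR.trans (hR.symm a4) (hR.trans r b4)
  have vu : R v u' := hR.trans (hR.symm uv) a1
  have e1 := h2 u v v' uv b1
  have e2 := h2 v u u' (hR.symm uv) a1
  have e3 := hp v u' vu (by linarith [z h2 u v uv, le u v' (hR.trans uv b1)])
  have e4 := h1 x u u' a4 a1
  have e5 := h1 x u' v (hR.trans a4 a1) (hR.symm vu)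
  have e6 := h1 x y v r b4
  linarith [z h1 v u' vu, (abs_lt.1 a2).2, (abs_lt.1 a5).2, (abs_lt.1 b5).1]

theorem result :
    (∀ (k : ℕ → ℕ) (c c' : (∀ i, Fin (k i)) × (∀ i, Fin (k i)) → ℝ),
      (∀ n, ContinuousOn c {p | Tail n p.1 p.2}) → (∀ n, ContinuousOn c' {p | Tail n p.1 p.2}) →
      Coc (fun x y => ∃ n, Tail n x y) c → Coc (fun x y => ∃ n, Tail n x y) c' →
      (∀ x y, (∃ n, Tail n x y) → (0 ≤ c (x, y) ↔ 0 ≤ c' (x, y))) →
      Bdd (fun x y => ∃ n, Tail n x y) c' → Bdd (fun x y => ∃ n, Tail n x y) c) ∧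
    ∀ (X : Type) [TopologicalSpace X] [CompactSpace X] (R : X → X → Prop), Equivalence R →
      (∀ x, Dense {y | R x y}) → ∀ τ : TopologicalSpace {p : X × X // R p.1 p.2},
      @IsLocalHomeomorph _ _ τ _ (fun g => g.1.1) → @Continuous _ _ τ _ (fun g => g.1.2) →
      ∀ c c' : X × X → ℝ, @Continuous _ _ τ _ (fun g => c g.1) →
      @Continuous _ _ τ _ (fun g => c' g.1) → Coc R c → Coc R c' →
      (∀ x y, R x y → (0 ≤ c (x, y) ↔ 0 ≤ c' (x, y))) → Bdd R c' → Bdd R c := by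
  constructor
  · intro k c c' a1 a2 a3 a4 a5
    refine core ⟨fun x => ⟨0, fun _ _ => rfl⟩, fun ⟨n, h⟩ => ⟨n, fun i hi => (h i hi).symm⟩,
      fun ⟨n, h⟩ ⟨m, h'⟩ => ⟨max n m, fun i hi => (h i (le_of_max_le_left hi)).trans
        (h' i (le_of_max_le_right hi))⟩⟩ (fun x y => ?_) a3 a4 (fun U a b hU => ?_)
      fun x y r => (a5 x y r).2
    · refine mem_closure_of_tendsto (b := Filter.atTop) (f := fun n i => if i < n then y i else x i)
        (tendsto_pi_nhds.2 fun i => tendsto_const_nhds.congr' ?_)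
        (Filter.Eventually.of_forall fun n => ⟨n, fun i hi => (if_neg (not_lt.2 hi)).symm⟩)
      filter_upwards [Filter.eventually_gt_atTop i] with n hn
      rw [if_pos hn]
    · refine isOpen_iff_mem_nhds.2 fun x ⟨u, b1, ⟨n, b2⟩, b3, b4⟩ => ?_
      obtain ⟨s, hs⟩ : ∃ s : (∀ i, Fin (k i)) → ∀ i, Fin (k i), s = fun y i =>
        if i < n then u i else y i := ⟨_, rfl⟩
      have s1 : Continuous s := hs ▸ continuous_pi fun i => by split_ifs <;> fun_prop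
      have s2 : ∀ y, Tail n y (s y) := fun y i hi => by rw [hs]; exact (if_neg (not_lt.2 hi)).symm
      have s3 : s x = u := by
        rw [hs]; funext i; dsimp only; split_ifs with h; exacts [rfl, b2 i (not_lt.1 h)]
      have s4 := (a1 n).comp_continuous (continuous_id.prodMk s1) s2
      have s5 := (a2 n).comp_continuous (continuous_id.prodMk s1) s2
      subst s3
      filter_upwards [(hU.preimage s1).mem_nhds b1, (isOpen_lt s4.abs continuous_const).mem_nhds b3,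
        (isOpen_lt continuous_const s5).mem_nhds b4] with y d1 d2 d3
      exact ⟨s y, d1, ⟨n, s2 y⟩, d2, d3⟩
  · intro X _ _ R hR hd τ a1 a2 c c' a3 a4 a5 a6 a7
    refine core hR hd a5 a6 (fun U a b hU => ?_) fun x y r => (a7 x y r).2
    letI := τ
    have := a1.isOpenMap _ ((hU.preimage a2).inter ((isOpen_lt a3.abs
      (continuous_const (y := a))).inter (isOpen_lt (continuous_const (y := b)) a4)))
    convert this using 1
    ext x
    exact ⟨fun ⟨u, d1, d2, d3⟩ => ⟨⟨(x, u), d2⟩, ⟨d1, d3⟩, rfl⟩,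
      fun ⟨g, ⟨d1, d3⟩, e⟩ => e ▸ ⟨g.1.2, d1, g.2, d3⟩⟩

end Pool.Agent.Results.MP_3ea43b_an.No
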